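import Pool.Agent.Lib.MP_04668c_co.Main2

/-!
# Slope numbers below average degree four, and of almost all edges in degree four

(i) For all `D`, `N` and `ε > 0` there is a constant `C` such that every finite graph `G` of
maximum degree at most `D` in which every connected set `W` of more than `N` vertices spans at
most `(2 - ε)|W|` edges has a straight-line drawing with at most `C` slopes, with no three
vertices on a line.

(ii) For every `η > 0` there is a constant `C` such that every finite graph `G` of maximum degree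
at most four has a straight-line drawing, with no three vertices on a line, in which all but at
most `η|V|` edges use at most `C` slopes.
-/

set_option autoImplicit false

namespace Pool.Agent.Results.MP_04668c_co.AverageDegreeBelowFour

open Finset

/-- `G` has a straight-line drawing (vertices at distinct points, no edge contains a vertex other
than its end points), with no three vertices on a line, in which the edges outside `E₀` use at
most `m` slopes. -/
def FewSlopes {V : Type} (G : SimpleGraph V) (E₀ : Finset (Sym2 V)) (m : ℕ) : Prop :=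
  ∃ f : V → ℝ × ℝ, Function.Injective f ∧
    (∀ u v w : V, G.Adj u v → w ≠ u → w ≠ v → f w ∉ segment ℝ (f u) (f v)) ∧
    (∀ u v w : V, u ≠ v → w ≠ u → w ≠ v → ¬ Collinear ℝ ({f u, f v, f w} : Set (ℝ × ℝ))) ∧
    ∃ S : Finset (ℝ × ℝ), S.card ≤ m ∧
      ∀ u v : V, G.Adj u v → s(u, v) ∉ E₀ → ∃ d ∈ S, ∃ t : ℝ, f v - f u = t • d

theorem seg_of_col {V : Type} (G : SimpleGraph V) (f : V → ℝ × ℝ)
    (h : ∀ u v w : V, u ≠ v → w ≠ u → w ≠ v → ¬ Collinear ℝ ({f u, f v, f w} : Set (ℝ × ℝ))) :
    ∀ u v w : V, G.Adj u v → w ≠ u → w ≠ v → f w ∉ segment ℝ (f u) (f v) := by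
  intro u v w huv hwu hwv hmem
  rw [mem_segment_iff_wbtw] at hmem
  have := hmem.collinear
  apply h u w v hwu.symm huv.ne' hwv.symm
  exact this

theorem result :
    (∀ (D N : ℕ) (ε : ℝ), 0 < ε → ∃ C : ℕ, ∀ (V : Type) [Fintype V] [DecidableEq V]
      (G : SimpleGraph V) [DecidableRel G.Adj], G.maxDegree ≤ D →
      (∀ W : Finset V, (G.induce (W : Set V)).Connected → N < W.card →
        ((G.edgeFinset.filter (fun e => ∀ x ∈ e, x ∈ W)).card : ℝ) ≤ (2 - ε) * W.card) →
      FewSlopes G ∅ C) ∧
    (∀ η : ℝ, 0 < η → ∃ C : ℕ, ∀ (V : Type) [Fintype V] (G : SimpleGraph V)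
      [DecidableRel G.Adj], G.maxDegree ≤ 4 →
      ∃ E₀ : Finset (Sym2 V), (E₀.card : ℝ) ≤ η * Fintype.card V ∧ FewSlopes G E₀ C) := by
  refine ⟨?_, ?_⟩
  · intro D N ε hε
    obtain ⟨C, hC⟩ := Pool.Agent.Lib.MP_04668c_co.main_sparse D N ε hε
    refine ⟨C, ?_⟩
    intro V _ _ G _ hdeg hsp
    obtain ⟨f, hf, hcol, S, hS, hdir⟩ := hC V G hdeg hsp
    exact ⟨f, hf, seg_of_col G f hcol, hcol, S, hS, fun u v huv _ => hdir u v huv⟩
  · intro η hη
    obtain ⟨C, hC⟩ := Pool.Agent.Lib.MP_04668c_co.main_almost η hη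
    refine ⟨C, ?_⟩
    intro V _ G _ hdeg
    obtain ⟨E₀, hE₀, f, hf, hcol, S, hS, hdir⟩ := hC V G hdeg
    exact ⟨E₀, hE₀, f, hf, seg_of_col G f hcol, hcol, S, hS, hdir⟩

end Pool.Agent.Results.MP_04668c_co.AverageDegreeBelowFour
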