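import Pool.Agent.Lib.MP_04668c_co.E.Assembly

/-!
# Bounded slope number of all expanders of maximum degree four

For every `h > 0` there is a constant `C` such that every finite graph `G` of maximum degree at
most four in which every set `Y` of at most half of the vertices is left by at least `h|Y|` edges
has a straight-line drawing whose edges use at most `C` slopes.
-/

set_option autoImplicit false

namespace Pool.Agent.Results.MP_04668c_co.Expanders

/-- `G` has a straight-line drawing (vertices at distinct points, no edge contains a vertex other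
than its end points) whose edges use at most `m` slopes. -/
def SlopeNumberLE {V : Type} (G : SimpleGraph V) (m : ℕ) : Prop :=
  ∃ f : V → ℝ × ℝ, Function.Injective f ∧
    (∀ u v w : V, G.Adj u v → w ≠ u → w ≠ v → f w ∉ segment ℝ (f u) (f v)) ∧
    ∃ S : Finset (ℝ × ℝ), S.card ≤ m ∧
      ∀ u v : V, G.Adj u v → ∃ d ∈ S, ∃ t : ℝ, f v - f u = t • d

/-- Every set `Y` of at most half of the vertices is left by at least `h|Y|` edges. -/
def IsExpander {V : Type} [Fintype V] [DecidableEq V] (G : SimpleGraph V) [DecidableRel G.Adj]
    (h : ℝ) : Prop :=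
  ∀ Y : Finset V, 2 * Y.card ≤ Fintype.card V →
    h * Y.card ≤ ((Y ×ˢ Yᶜ).filter (fun p => G.Adj p.1 p.2)).card

theorem result : ∀ h : ℝ, 0 < h → ∃ C : ℕ, ∀ (V : Type) [Fintype V] [DecidableEq V]
    (G : SimpleGraph V) [DecidableRel G.Adj], G.maxDegree ≤ 4 → IsExpander G h →
    SlopeNumberLE G C :=
  Pool.Agent.Lib.MP_04668c_co.E.Assembly.theoremE

end Pool.Agent.Results.MP_04668c_co.Expanders
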