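import Mathlib
import Pool.Agent.Lib.MP_04668c_co.H6.Count

set_option autoImplicit false

namespace Pool.Agent.Results.MP_04668c_co.RandomHamiltonCycles

open Pool.Agent.MP_04668c_co.H6

/-- For every `n ≥ 1`, all but a proportion of at most `72 / n` of the permutations `σ` of `ZMod n`
have the property that the union of the two Hamiltonian cycles `0, 1, …, n-1` and
`σ⁻¹ 0, σ⁻¹ 1, …, σ⁻¹ (n-1)` has a straight-line drawing with at most `9` slopes. -/
theorem result (n : ℕ) [NeZero n] :
    n * Nat.card {σ : Equiv.Perm (ZMod n) // ¬ HasDrawing (twoCycles n σ) 9} ≤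
      72 * n.factorial :=
  random_pair n

end Pool.Agent.Results.MP_04668c_co.RandomHamiltonCycles
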