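import Pool.Agent.Lib.MP_04668c_co.Main1

/-!
# Slope number of graphs of maximum degree four that are nearly unions of two linear forests

(i) If the edges of a graph `G` of maximum degree at most four that avoid a set `S` of at most `k`
vertices are covered by two linear forests (acyclic graphs of maximum degree at most two), and
every vertex set of more than `q` vertices disjoint from `S` spans at most `2|Q| - 3` edges, then
the slope number of `G` is at most `4q + 4k`.

(ii) If `G` is 4-regular and a union of two Hamiltonian cycles, and every vertex set `Q` such that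
`Q` and its complement have more than `q` vertices is left by at least 6 edges, then the slope
number of `G` is at most `8q + 4`.
-/

set_option autoImplicit false

namespace Pool.Agent.Results.MP_04668c_co.TwoLinearForests

open Finset

/-- `G` has a straight-line drawing (vertices at distinct points, no edge contains a vertex other
than its end points) whose edges use at most `m` slopes. -/
def SlopeNumberLE {V : Type} (G : SimpleGraph V) (m : ℕ) : Prop :=
  ∃ f : V → ℝ × ℝ, Function.Injective f ∧
    (∀ u v w : V, G.Adj u v → w ≠ u → w ≠ v → f w ∉ segment ℝ (f u) (f v)) ∧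
    ∃ S : Finset (ℝ × ℝ), S.card ≤ m ∧
      ∀ u v : V, G.Adj u v → ∃ d ∈ S, ∃ t : ℝ, f v - f u = t • d

theorem result :
    (∀ (q k : ℕ) (V : Type) [Fintype V] [DecidableEq V] (G F₁ F₂ : SimpleGraph V)
      [DecidableRel G.Adj] [DecidableRel F₁.Adj] [DecidableRel F₂.Adj] (S : Finset V),
      1 ≤ q → G.maxDegree ≤ 4 → S.card ≤ k →
      F₁.IsAcyclic → F₁.maxDegree ≤ 2 → F₂.IsAcyclic → F₂.maxDegree ≤ 2 →
      (∀ u v, G.Adj u v → u ∉ S → v ∉ S → F₁.Adj u v ∨ F₂.Adj u v) →
      (∀ Q : Finset V, Disjoint Q S → q < Q.card →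
        (G.edgeFinset.filter (fun e => ∀ x ∈ e, x ∈ Q)).card + 3 ≤ 2 * Q.card) →
      SlopeNumberLE G (4 * q + 4 * k)) ∧
    (∀ (q n : ℕ) (V : Type) [Fintype V] [DecidableEq V] (G : SimpleGraph V)
      [DecidableRel G.Adj] (f g : Fin n ≃ V),
      1 ≤ q → G.IsRegularOfDegree 4 →
      G = (SimpleGraph.cycleGraph n).map f.toEmbedding ⊔
        (SimpleGraph.cycleGraph n).map g.toEmbedding →
      (∀ Q : Finset V, q < Q.card → q < Qᶜ.card →
        6 ≤ ((Q ×ˢ Qᶜ).filter (fun p => G.Adj p.1 p.2)).card) →
      SlopeNumberLE G (8 * q + 4)) := by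
  refine ⟨?_, ?_⟩
  · intro q k V _ _ G F₁ F₂ _ _ _ S hq hdeg hk h₁ h₁' h₂ h₂' hE hQ
    exact Pool.Agent.Lib.MP_04668c_co.main_forests q k G F₁ F₂ S hq hdeg hk h₁ h₁' h₂ h₂' hE hQ
  · intro q n V _ _ G _ f g hq hreg hG hcut
    exact Pool.Agent.Lib.MP_04668c_co.main_hamiltonian q n G f g hq hreg hG hcut

end Pool.Agent.Results.MP_04668c_co.TwoLinearForests
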